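import Pool.Agent.helper91.MM.SpecB

set_option autoImplicit false

namespace Pool.Agent.MM

open Pool.Agent.Scheepers Filter Topology Cardinal

theorem MAJ (h1 : XBK_stmt) (h2 : BLD_stmt) : MAJ_stmt := by
  classical
  intro S p N J hJ W b hW hconv
  have hXB := (h1 S p).1
  have hBLD := h2 S p (2 * N) J hJ
  by_contra hcon
  push Not at hcon
  choose k hk l0 hl0 using hcon
  -- the level used for the `i`-th bad index
  let l : ℕ → ℕ := fun i => max (l0 i) (max (b (k i)) (max (J + 1) i))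
  have hl1 : ∀ i, l0 i ≤ l i := fun i => le_max_left _ _
  have hl2 : ∀ i, b (k i) ≤ p.a (l i) := fun i =>
    ((le_max_left _ _).trans (le_max_right _ _)).trans (p.mono.id_le (l i))
  have hl3 : ∀ i, J + 1 ≤ l i := fun i =>
    ((le_max_left _ _).trans (le_max_right _ _)).trans (le_max_right _ _)
  have hl4 : ∀ i, i ≤ l i := fun i =>
    ((le_max_right _ _).trans (le_max_right _ _)).trans (le_max_right _ _)
  have hbad : ∀ i, ∃ t : Set (ℕ × ℕ), t ∈ S.V N ∧ ∃ w : ℕ × ℕ, w.1 ≤ N ∧ w.2 ≤ N ∧ w ∉ t ∧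
      ∀ u ∈ p.blk (W (k i)) J (l i),
        (∀ e, p.a J ≤ e → e < p.a (l i) → pos e ∈ t → u e = false) →
          ¬ ∃ e, p.a J ≤ e ∧ e < p.a (l i) ∧ pos e = w ∧ u e = true := by
    intro i
    have := hl0 i (l i) (hl1 i)
    unfold Lg at this
    push Not at this
    obtain ⟨t, ht, w, h1, h2, h3, h4⟩ := this
    refine ⟨t, ht, w, h1, h2, h3, ?_⟩
    intro u hu hz hex
    obtain ⟨e, he, he', hp, hue⟩ := hex
    exact h4 u hu hz e he he' hp hue
  choose t ht w hw1 hw2 hw3 hw4 using hbad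
  -- a non principal ultrafilter
  let U : Ultrafilter ℕ := Ultrafilter.of Filter.atTop
  have hU : (U : Filter ℕ) ≤ Filter.atTop := Ultrafilter.of_le _
  let tt : Set (ℕ × ℕ) := {x | ∀ᶠ i in (U : Filter ℕ), x ∈ t i}
  have htt' : ∀ x, ∀ᶠ i in (U : Filter ℕ), (x ∈ t i ↔ x ∈ tt) := by
    intro x
    by_cases hx : x ∈ tt
    · have : ∀ᶠ i in (U : Filter ℕ), x ∈ t i := hx
      filter_upwards [this] with i hi
      simp [hi, hx]
    · have : ∀ᶠ i in (U : Filter ℕ), x ∉ t i := by
        rw [Ultrafilter.eventually_not]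
        exact hx
      filter_upwards [this] with i hi
      simp [hi, hx]
  have htt : tt ∈ S.V N := S.lim N U t ht
  have httu : ∀ᶠ i in (U : Filter ℕ), tt ∪ t i ∈ S.V (2 * N) := S.union N U t ht
  -- the constant value of `w`
  have hws : ∃ ws : ℕ × ℕ, ∀ᶠ i in (U : Filter ℕ), w i = ws := by
    have hfin : (Set.Finite {x : ℕ × ℕ | x.1 ≤ N ∧ x.2 ≤ N}) := by
      refine (Set.Finite.prod (Set.finite_Iic N) (Set.finite_Iic N)).subset ?_
      rintro ⟨x, y⟩ ⟨h1, h2⟩
      exact ⟨h1, h2⟩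
    have hmem : ∀ᶠ i in (U : Filter ℕ), w i ∈ ({x : ℕ × ℕ | x.1 ≤ N ∧ x.2 ≤ N}) :=
      Filter.Eventually.of_forall (fun i => ⟨hw1 i, hw2 i⟩)
    have h2 : ({x : ℕ × ℕ | x.1 ≤ N ∧ x.2 ≤ N}) ∈ U.map w := by
      rw [Ultrafilter.mem_map]
      exact hmem
    obtain ⟨ws, -, hws⟩ := Ultrafilter.eq_pure_of_finite_mem hfin h2
    refine ⟨ws, ?_⟩
    have h3 : ({ws} : Set (ℕ × ℕ)) ∈ U.map w := by
      rw [hws]
      exact Set.mem_singleton _
    rw [Ultrafilter.mem_map] at h3
    exact h3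
  obtain ⟨ws, hws⟩ := hws
  have hws1 : ws.1 ≤ N ∧ ws.2 ≤ N := by
    obtain ⟨i, hi⟩ := hws.exists
    exact ⟨hi ▸ hw1 i, hi ▸ hw2 i⟩
  have hws2 : ws ∉ tt := by
    intro hmem
    have h1 : ∀ᶠ i in (U : Filter ℕ), ws ∈ t i := hmem
    obtain ⟨i, hi1, hi2⟩ := (h1.and hws).exists
    exact hw3 i (hi2 ▸ hi1)
  -- choose a good subsequence
  have hstep : ∀ m : ℕ, ∃ m' : ℕ, w m' = ws ∧ (∀ e, e < p.a (l m) → (pos e ∈ t m' ↔ pos e ∈ tt)) ∧
      l m < l m' ∧ k m < k m' ∧ tt ∪ t m' ∈ S.V (2 * N) := by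
    intro m
    have h1 : ∀ᶠ i in (U : Filter ℕ), ∀ e ∈ Finset.range (p.a (l m)),
        (pos e ∈ t i ↔ pos e ∈ tt) := by
      rw [Filter.eventually_all_finset]
      intro e _
      exact htt' (pos e)
    have h2 : ∀ᶠ i in (U : Filter ℕ), l m < i := hU (Filter.eventually_gt_atTop _)
    have h3 : ∀ᶠ i in (U : Filter ℕ), k m < i := hU (Filter.eventually_gt_atTop _)
    obtain ⟨i, hi1, hi2, hi3, hi4, hi5⟩ := (hws.and (h1.and (h2.and (h3.and httu)))).exists
    refine ⟨i, hi1, fun e he => hi2 e (Finset.mem_range.2 he), lt_of_lt_of_le hi3 (hl4 i),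
      lt_of_lt_of_le hi4 (hk i), hi5⟩
  choose f hf1 hf2 hf3 hf4 hf5 using hstep
  let idx : ℕ → ℕ := fun r => f^[r + 1] 0
  have hidx : ∀ r, idx (r + 1) = f (idx r) := fun r => Function.iterate_succ_apply' f (r + 1) 0
  have hidxw : ∀ r, w (idx r) = ws := by
    intro r
    have : idx r = f (f^[r] 0) := Function.iterate_succ_apply' f r 0
    rw [this]
    exact hf1 _
  have hlmono : StrictMono (fun r => l (idx r)) := by
    refine strictMono_nat_of_lt_succ (fun r => ?_)
    rw [hidx r]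
    exact hf3 _
  have hkmono : StrictMono (fun r => k (idx r)) := by
    refine strictMono_nat_of_lt_succ (fun r => ?_)
    rw [hidx r]
    exact hf4 _
  have hagree : ∀ r r' e, r < r' → e < p.a (l (idx r)) → (pos e ∈ t (idx r') ↔ pos e ∈ tt) := by
    intro r r' e hrr' he
    obtain ⟨q, rfl⟩ : ∃ q, r' = q + 1 := ⟨r' - 1, by omega⟩
    rw [hidx q]
    refine hf2 (idx q) e (lt_of_lt_of_le he ?_)
    exact p.mono.monotone (hlmono.monotone (by omega : r ≤ q))
  -- the stage attached to a block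
  have hexr : ∀ j, ∃ r, j < l (idx r) := fun j => ⟨j + 1, lt_of_lt_of_le (Nat.lt_succ_self j)
    (hlmono.id_le (j + 1))⟩
  let rr : ℕ → ℕ := fun j => Nat.find (hexr j)
  have hrr1 : ∀ j, j < l (idx (rr j)) := fun j => Nat.find_spec (hexr j)
  have hrr2 : ∀ j r, j < l (idx r) → rr j ≤ r := fun j r h => Nat.find_min' (hexr j) h
  let T : ℕ → Set (ℕ × ℕ) := fun j => tt ∪ t (idx (rr j))
  have hT : ∀ j, J ≤ j → T j ∈ S.V (2 * N) := by
    intro j _
    have hv : idx (rr j) = f (f^[rr j] 0) := Function.iterate_succ_apply' f (rr j) 0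
    show tt ∪ t (idx (rr j)) ∈ S.V (2 * N)
    rw [hv]
    exact hf5 _
  let x : ℕ → ℕ × ℕ := fun j => if j = J then ws else pos j
  obtain ⟨z, hz1, hz2⟩ := hBLD T hT x (fun _ => false)
  -- `z` satisfies the bad requirement for each chosen index
  have hbadz : ∀ r, ∃ v : ℕ → Bool, (∀ e, p.a J ≤ e → e < p.a (l (idx r)) → v e = z e) ∧
      v ∈ W (k (idx r)) := by
    intro r
    by_contra hnone
    push Not at hnone
    refine hw4 (idx r) z ⟨fun j hj _ => (hz2 j hj).1, fun v hv => hnone v hv⟩ ?_ ?_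
    · intro e he he' hpos
      obtain ⟨j, hj1, hj2, hj3⟩ := hXB _ _ he
      refine (hz2 j hj1).2.1 e hj2 hj3 ?_
      have hjl : j < l (idx r) := by
        by_contra hge
        push Not at hge
        have := p.mono.monotone hge
        omega
      rcases (hrr2 j r hjl).eq_or_lt with h | h
      · right
        rw [h]
        exact hpos
      · left
        refine (hagree (rr j) r e h ?_).1 hpos
        exact lt_of_lt_of_le hj3 (p.mono.monotone (hrr1 j))
    · have hxJ : x J = ws := by simp [x]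
      have hwsT : ws ∉ T J := by
        rintro (h | h)
        · exact hws2 h
        · exact hw3 _ (by rw [hidxw]; exact h)
      obtain ⟨e, he1, he2, he3, he4⟩ := (hz2 J le_rfl).2.2 (2 * N) le_rfl
        (by rw [hxJ]; omega) (by rw [hxJ]; omega) (by rw [hxJ]; exact hwsT) (hJ J le_rfl)
      refine ⟨e, he1, lt_of_lt_of_le he2 (p.mono.monotone (hl3 _)), ?_, he4⟩
      rw [he3, hxJ, hidxw]
  choose v hv1 hv2 using hbadz
  -- pigeonhole on the initial segments
  obtain ⟨s, hs⟩ : ∃ s : Fin (p.a J) → Bool, ∃ᶠ r in Filter.atTop,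
      (fun e : Fin (p.a J) => v r e) = s := by
    have h1 : ∃ᶠ r : ℕ in Filter.atTop, ∃ s : Fin (p.a J) → Bool,
        (fun e : Fin (p.a J) => v r e) = s :=
      Filter.Frequently.of_forall (fun r => ⟨_, rfl⟩)
    by_contra hno
    push Not at hno
    have h2 : ∀ s : Fin (p.a J) → Bool, ∀ᶠ r in Filter.atTop,
        ¬ (fun e : Fin (p.a J) => v r e) = s := fun s => hno s
    have h3 := Filter.eventually_all.2 h2
    obtain ⟨r, hr⟩ := h3.exists
    exact hr _ rfl
  let zz : ℕ → Bool := fun e => if h : e < p.a J then s ⟨e, h⟩ else z e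
  have hzz1 : ∀ e, p.a J ≤ e → zz e = z e := fun e he => by simp [zz, not_lt.2 he]
  have hzzW : ∀ r, (fun e : Fin (p.a J) => v r e) = s → zz ∈ W (k (idx r)) := by
    intro r hr
    refine hW _ (v r) zz (fun e he => ?_) (hv2 r)
    by_cases h : e < p.a J
    · have := congrFun hr ⟨e, h⟩
      simp only [zz, h, dif_pos]
      exact this
    · push Not at h
      rw [hzz1 e h]
      exact hv1 r e h (lt_of_lt_of_le he (hl2 _))
  have hzzstar : zz ∈ p.star := by
    refine ⟨J, fun j hj => p.loc j z zz (fun e he _ => ?_) (hz2 j hj).1⟩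
    rw [hzz1 e ((p.mono.monotone hj).trans he)]
  have hzzP2 : zz ∈ S.P := by
    refine S.inP N tt htt zz ?_
    intro y hy hF
    suffices hex : ∃ e, pos e = y ∧ zz e = true by
      obtain ⟨e, he, hze⟩ := hex
      have := hF e he
      rw [hze] at this
      exact Bool.noConfusion this
    -- large `M` handling `y`
    let M := max (2 * N) (max y.1 y.2)
    obtain ⟨J1, hJ1⟩ := p.large M
    obtain ⟨e0, -, he0⟩ := exists_pos_ge y 0
    -- a stage after which the `t`'s agree with `tt` at `y`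
    obtain ⟨j, hj1, hj2⟩ := exists_pos_ge y
      (max (J + 1) (max J1 (l (idx (e0 + 1)))))
    have hjJ : J + 1 ≤ j := (le_max_left _ _).trans hj1
    have hjJ1 : J1 ≤ j := ((le_max_left _ _).trans (le_max_right _ _)).trans hj1
    have hjl : l (idx (e0 + 1)) ≤ j := ((le_max_right _ _).trans (le_max_right _ _)).trans hj1
    have hxj : x j = y := by
      have : j ≠ J := by omega
      simp [x, this, hj2]
    have hr : e0 + 1 < rr j := by
      by_contra hge
      push Not at hge
      have h1 := hrr1 j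
      have h2 : l (idx (rr j)) ≤ l (idx (e0 + 1)) := hlmono.monotone hge
      omega
    have hyT : y ∉ T j := by
      rintro (h | h)
      · exact hy h
      · apply hy
        have h3 := hagree (e0 + 1) (rr j) e0 hr (by
          have h4 : e0 + 1 ≤ l (idx (e0 + 1)) := hlmono.id_le (e0 + 1)
          have h5 := p.mono.id_le (l (idx (e0 + 1)))
          simp only [id] at h5
          omega)
        rw [he0] at h3
        exact h3.1 h
    obtain ⟨e, he1, he2, he3, he4⟩ := (hz2 j (by omega)).2.2 M (le_max_left _ _)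
      (by rw [hxj]; exact (le_max_left _ _).trans (le_max_right _ _))
      (by rw [hxj]; exact (le_max_right _ _).trans (le_max_right _ _))
      (by rw [hxj]; exact hyT) (hJ1 j hjJ1)
    refine ⟨e, by rw [he3, hxj], ?_⟩
    rw [hzz1 e ((p.mono.monotone (by omega : J ≤ j)).trans he1)]
    exact he4
  obtain ⟨k0, hk0⟩ := hconv zz hzzstar hzzP2
  obtain ⟨r, hr, hr'⟩ := (hs.and_eventually (Filter.eventually_ge_atTop k0)).exists
  refine hk0 (k (idx r)) ?_ (hzzW r hr)
  have := hkmono.id_le r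
  simp only [id] at this
  omega


end Pool.Agent.MM
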